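import Pool.Agent.Y258.SS.CE2

set_option autoImplicit false

/-! Project SS, job CE: partition of the sphere into small caps. -/

namespace Pool.Agent.Y258.SSCE

open MeasureTheory Set Complex Filter Topology
open scoped ENNReal NNReal RealInnerProductSpace
open Pool.Agent.Helper793.Nir (E3 S2 sig S2_norm)
open Pool.Agent.Y250.SS

lemma int_of_bes (s : ℝ) (K : ℝ≥0) (g : S2 → ℂ) (hg : BesS s K g) : Integrable g sig := by
  refine ⟨hg.1.aestronglyMeasurable, ?_⟩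
  have h1 : ∀ a : ℝ≥0∞, a ≤ 1 + a ^ 2 := by
    intro a
    rcases le_total a 1 with h | h
    · exact h.trans le_self_add
    · calc a = a * 1 := (mul_one a).symm
        _ ≤ a * a := by gcongr
        _ = a ^ 2 := (sq a).symm
        _ ≤ _ := le_add_self
  calc ∫⁻ x, ‖g x‖ₑ ∂sig ≤ ∫⁻ x, (1 + ‖g x‖ₑ ^ 2) ∂sig := lintegral_mono fun x => h1 _
    _ = sig univ + ∫⁻ x, ‖g x‖ₑ ^ 2 ∂sig := by
        rw [lintegral_add_left measurable_const, lintegral_const, one_mul]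
    _ ≤ sig univ + (K : ℝ≥0∞) ^ 2 := by gcongr; exact hg.2.1
    _ < ∞ := by
        refine ENNReal.add_lt_top.2 ⟨measure_lt_top _ _, ?_⟩
        exact ENNReal.pow_lt_top ENNReal.coe_lt_top

lemma ker_meas : Measurable fun p : E3 × S2 =>
    cexp (-(2 * Real.pi * ⟪(p.2 : E3), p.1⟫ : ℝ) * I) := by
  have h : Continuous fun p : E3 × S2 => cexp (-(2 * Real.pi * ⟪(p.2 : E3), p.1⟫ : ℝ) * I) := by
    fun_prop
  exact h.measurable

lemma ft_meas (f : S2 → ℂ) (hf : Measurable f) : AEStronglyMeasurable (ft f) volume := by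
  have h : Measurable (Function.uncurry fun (ξ : E3) (x : S2) =>
      cexp (-(2 * Real.pi * ⟪(x : E3), ξ⟫ : ℝ) * I) * f x) :=
    ker_meas.mul (hf.comp measurable_snd)
  exact (h.stronglyMeasurable.integral_prod_right).aestronglyMeasurable

lemma ker_norm (ξ : E3) (x : S2) : ‖cexp (-(2 * Real.pi * ⟪(x : E3), ξ⟫ : ℝ) * I)‖ = 1 := by
  have e : (-(2 * Real.pi * ⟪(x : E3), ξ⟫ : ℝ) * I : ℂ) =
      ((-(2 * Real.pi * ⟪(x : E3), ξ⟫) : ℝ) : ℂ) * I := by push_cast; ring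
  rw [e, Complex.norm_exp_ofReal_mul_I]

lemma ker_int (ξ : E3) (f : S2 → ℂ) (hf : Integrable f sig) :
    Integrable (fun x : S2 => cexp (-(2 * Real.pi * ⟪(x : E3), ξ⟫ : ℝ) * I) * f x) sig := by
  have hk : Measurable fun x : S2 => cexp (-(2 * Real.pi * ⟪(x : E3), ξ⟫ : ℝ) * I) := by
    have h : Continuous fun x : S2 => cexp (-(2 * Real.pi * ⟪(x : E3), ξ⟫ : ℝ) * I) := by
      fun_prop
    exact h.measurable
  have hm : AEStronglyMeasurable
      (fun x : S2 => cexp (-(2 * Real.pi * ⟪(x : E3), ξ⟫ : ℝ) * I) * f x) sig :=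
    (hk.aestronglyMeasurable (μ := sig)).mul hf.aestronglyMeasurable
  refine Integrable.mono hf hm (ae_of_all sig fun x => ?_)
  rw [norm_mul, ker_norm, one_mul]

lemma ft_sum {ι : Type*} (t : Finset ι) (f : ι → S2 → ℂ) (hf : ∀ a ∈ t, Integrable (f a) sig) :
    ft (fun x => ∑ a ∈ t, f a x) = ∑ a ∈ t, ft (f a) := by
  funext ξ
  rw [Finset.sum_apply]
  calc ft (fun x => ∑ a ∈ t, f a x) ξ
      = ∫ x, ∑ a ∈ t, cexp (-(2 * Real.pi * ⟪(x : E3), ξ⟫ : ℝ) * I) * f a x ∂sig := by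
        unfold ft
        congr 1
        funext x
        rw [Finset.mul_sum]
    _ = ∑ a ∈ t, ∫ x, cexp (-(2 * Real.pi * ⟪(x : E3), ξ⟫ : ℝ) * I) * f a x ∂sig :=
        integral_finsetSum t fun a ha => ker_int ξ (f a) (hf a ha)
    _ = _ := rfl

theorem ce : S_CA → S_CE := by
  intro hCA q s C hq hs0 hs1 hcap
  refine ⟨1620 * 29 ^ 4 * C, fun n M φ hn hφ hSm g K hg => ?_⟩
  have hn1 : (1:ℝ) ≤ n := by exact_mod_cast hn
  have hn0 : (0:ℝ) < n := by linarith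
  have hM0 : (0:ℝ) ≤ M := M.2
  set B : ℝ := (1 + (M:ℝ)) ^ (1 / ((n:ℝ) + 1)) with hB
  have hB1 : 1 ≤ B := Real.one_le_rpow (by linarith) (by positivity)
  have hBp : B ^ (n + 1) = 1 + M := by
    rw [hB, ← Real.rpow_natCast, ← Real.rpow_mul (by linarith)]
    push_cast
    rw [one_div, inv_mul_cancel₀ (by positivity), Real.rpow_one]
  have hs1' : 1 ≤ √(n:ℝ) := Real.one_le_sqrt.2 hn1
  set N : ℕ := ⌈28 * (√(n:ℝ) * B)⌉₊ with hN
  have hAB : 1 ≤ √(n:ℝ) * B := by nlinarith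
  have hN28 : 28 * (√(n:ℝ) * B) ≤ N := Nat.le_ceil _
  have hN29 : (N:ℝ) ≤ 29 * (√(n:ℝ) * B) := by
    have := Nat.ceil_lt_add_one (show 0 ≤ 28 * (√(n:ℝ) * B) by positivity)
    linarith
  have hNpos : (0:ℝ) < N := by linarith
  have hN0 : 0 < N := Nat.cast_pos.1 hNpos
  have hN1 : 1 ≤ N := hN0
  have hN1' : (1:ℝ) ≤ N := by exact_mod_cast hN1
  have hNB : 28 * B ≤ N := by nlinarith
  have hNs : 28 * √(n:ℝ) ≤ N := by nlinarith
  have hr : 7 / (2 * (N:ℝ)) ≤ 1 / (8 * √(n:ℝ)) := by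
    rw [div_le_div_iff₀ (by positivity) (by positivity)]
    linarith
  have hL : (M:ℝ) * (7 / (2 * (N:ℝ))) ^ n ≤ N := by
    have h1 : (28:ℝ) ^ (n + 1) * (1 + M) ≤ (N:ℝ) ^ (n + 1) := by
      rw [← hBp, ← mul_pow]
      exact pow_le_pow_left₀ (by positivity) hNB _
    have h2 : (M:ℝ) * (7 / 2) ^ n ≤ (28:ℝ) ^ (n + 1) * (1 + M) := by
      have h3 : (7 / 2 : ℝ) ^ n ≤ 28 ^ n := pow_le_pow_left₀ (by norm_num) (by norm_num) _
      have h4 : (0:ℝ) < 28 ^ n := by positivity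
      rw [pow_succ]
      nlinarith [mul_le_mul_of_nonneg_left h3 hM0, mul_nonneg h4.le hM0]
    have h5 : (7 / (2 * (N:ℝ))) ^ n = (7 / 2) ^ n / (N:ℝ) ^ n := by
      rw [← div_pow]
      congr 1
      field_simp
    rw [h5, ← mul_div_assoc, div_le_iff₀ (by positivity)]
    calc _ ≤ (N:ℝ) ^ (n + 1) := h2.trans h1
      _ = _ := by rw [pow_succ]; ring
  have hch : ∀ a : Fin 3 → ℕ, ∃ c : S2, (∃ x : S2, cf N a (x : E3) ≠ 0) → cf N a (c : E3) ≠ 0 := by
    intro a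
    by_cases h : ∃ x : S2, cf N a (x : E3) ≠ 0
    · obtain ⟨x, hx⟩ := h
      exact ⟨x, fun _ => hx⟩
    · exact ⟨⟨EuclideanSpace.single 0 1, by simp⟩, fun h' => absurd h' h⟩
  choose ctr hctr using hch
  choose P hPd hP using fun a => hSm (ctr a)
  set m : (Fin 3 → ℕ) → S2 → ℂ := fun a x =>
    cexp (((φ x - evE (P a) x : ℝ) : ℂ) * I) * ((cf N a (x : E3) : ℝ) : ℂ) with hm
  have hcfm : ∀ a, Measurable fun x : S2 => cf N a (x : E3) := fun a =>
    ((cf_cont N a).comp continuous_subtype_val).measurable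
  have hevm : ∀ a, Measurable fun x : S2 => evE (P a) (x : E3) := fun a =>
    ((evE_cont (P a)).comp continuous_subtype_val).measurable
  have hmm : ∀ a, Measurable (m a) := by
    intro a
    have h1 : Measurable fun x : S2 => ((φ x - evE (P a) x : ℝ) : ℂ) :=
      Complex.measurable_ofReal.comp (hφ.sub (hevm a))
    have h2 : Measurable fun x : S2 => ((cf N a (x : E3) : ℝ) : ℂ) :=
      Complex.measurable_ofReal.comp (hcfm a)
    exact (Complex.measurable_exp.comp (h1.mul_const I)).mul h2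
  have hm1 : ∀ a x, ‖m a x‖ ≤ 1 := by
    intro a x
    rw [hm]
    simp only
    rw [norm_mul, Complex.norm_exp_ofReal_mul_I, one_mul, Complex.norm_real, Real.norm_eq_abs,
      abs_of_nonneg (cf_nonneg _ _ _)]
    exact cf_le _ _ _
  have hdist : ∀ (a : Fin 3 → ℕ) (x : S2), cf N a (x : E3) ≠ 0 →
      ‖(x : E3) - (ctr a : E3)‖ ≤ 7 / (2 * N) := fun a x hx =>
    cf_dist N hN0 a _ _ hx (hctr a ⟨x, hx⟩)
  have hlip : ∀ a (x y : S2), ‖m a x - m a y‖ ≤ 4 * N * ‖(x : E3) - (y : E3)‖ := by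
    intro a x y
    have h := mult_lip (fun x => φ x - evE (P a) x) (fun x => cf N a (x : E3)) (3 * N) N
      (by positivity) (by positivity) (fun x => ⟨cf_nonneg _ _ _, cf_le _ _ _⟩)
      (fun x y => cf_lip N a _ _) (fun x y hx hy => ?_) x y
    · refine h.trans (le_of_eq ?_)
      ring
    · refine (hP a (7 / (2 * N)) x y (hdist a x hx) (hdist a y hy)).trans ?_
      exact mul_le_mul_of_nonneg_right hL (norm_nonneg _)
  have hbes : ∀ a, BesS s (60 * N * K) fun x => m a x * g x := fun a =>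
    bes_mul hCA s hs1 K g (m a) (hmm a) (hm1 a) N hN1 (hlip a) hg
  set F : (Fin 3 → ℕ) → S2 → ℂ := fun a x => cexp ((evE (P a) x : ℂ) * I) * (m a x * g x) with hF
  have hFm : ∀ a, Measurable (F a) := by
    intro a
    have h1 : Measurable fun x : S2 => ((evE (P a) x : ℝ) : ℂ) :=
      Complex.measurable_ofReal.comp (hevm a)
    exact (Complex.measurable_exp.comp (h1.mul_const I)).mul ((hmm a).mul hg.1)
  have hgi := int_of_bes s K g hg
  have hFi : ∀ a, Integrable (F a) sig := by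
    intro a
    refine hgi.mono (hFm a).aestronglyMeasurable (ae_of_all _ fun x => ?_)
    rw [hF]
    simp only
    rw [norm_mul, Complex.norm_exp_ofReal_mul_I, one_mul, norm_mul]
    calc _ ≤ 1 * ‖g x‖ := mul_le_mul_of_nonneg_right (hm1 a x) (norm_nonneg _)
      _ = _ := one_mul _
  have hsum : (fun x : S2 => cexp ((φ x : ℂ) * I) * g x) = fun x => ∑ a ∈ cells N, F a x := by
    funext x
    have h1 : ∀ a ∈ cells N, F a x = (cexp ((φ x : ℂ) * I) * g x) * ((cf N a (x : E3) : ℝ) : ℂ) := by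
      intro a _
      have h2 : cexp ((φ x : ℂ) * I) = cexp ((evE (P a) x : ℂ) * I) *
          cexp (((φ x - evE (P a) x : ℝ) : ℂ) * I) := by
        rw [← Complex.exp_add]
        congr 1
        push_cast
        ring
      rw [h2, hF, hm]
      simp only
      ring
    rw [Finset.sum_congr rfl h1, ← Finset.mul_sum, ← Complex.ofReal_sum, cf_sum, ofReal_one,
      mul_one]
  rw [hsum, ft_sum (cells N) F fun a _ => hFi a]
  have hq1 : (1 : ℝ≥0∞) ≤ ENNReal.ofReal q := by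
    rw [← ENNReal.ofReal_one]
    exact ENNReal.ofReal_le_ofReal (by linarith)
  have hcapa : ∀ a ∈ cells N, eLpNorm (ft (F a)) (ENNReal.ofReal q) volume ≤
      C * ((n : ℝ≥0) ^ 6 * (60 * N * K) : ℝ≥0) := by
    intro a _
    refine hcap (ctr a) n (P a) (fun x => m a x * g x) (60 * N * K) hn (hPd a) (hbes a) ?_
    intro x hx
    refine (hdist a x fun h0 => hx ?_).trans hr
    rw [hm]
    simp only
    rw [h0]
    simp
  have hN4 : (N : ℝ≥0) ^ 4 ≤ 29 ^ 4 * (n:ℝ≥0) ^ 2 * (1 + M) ^ (4 / ((n : ℝ) + 1)) := by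
    rw [← NNReal.coe_le_coe]
    push_cast
    calc (N:ℝ) ^ 4 ≤ (29 * (√(n:ℝ) * B)) ^ 4 := pow_le_pow_left₀ hNpos.le hN29 4
      _ = 29 ^ 4 * ((√(n:ℝ)) ^ 2) ^ 2 * B ^ 4 := by ring
      _ = _ := by
          rw [Real.sq_sqrt hn0.le, hB, ← Real.rpow_natCast ((1 + (M:ℝ)) ^ (1 / ((n:ℝ) + 1))),
            ← Real.rpow_mul (by linarith)]
          congr 2
          push_cast
          ring
  calc eLpNorm (∑ a ∈ cells N, ft (F a)) (ENNReal.ofReal q) volume
      ≤ ∑ a ∈ cells N, eLpNorm (ft (F a)) (ENNReal.ofReal q) volume :=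
        eLpNorm_sum_le (fun a _ => ft_meas _ (hFm a)) hq1
    _ ≤ ∑ _a ∈ cells N, (C * ((n : ℝ≥0) ^ 6 * (60 * N * K) : ℝ≥0) : ℝ≥0∞) :=
        Finset.sum_le_sum hcapa
    _ = (((2 * N + 1) ^ 3 * (C * ((n : ℝ≥0) ^ 6 * (60 * N * K))) : ℝ≥0) : ℝ≥0∞) := by
        rw [Finset.sum_const, cells_card, nsmul_eq_mul]
        push_cast
        ring
    _ ≤ (((1620 * 29 ^ 4 * C) * ((n : ℝ≥0) ^ 8 * (1 + M) ^ (4 / ((n : ℝ) + 1)) * K) : ℝ≥0) :
        ℝ≥0∞) := by
        rw [ENNReal.coe_le_coe]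
        have h1 : (1 : ℝ≥0) ≤ N := by exact_mod_cast hN1
        calc (2 * (N:ℝ≥0) + 1) ^ 3 * (C * ((n : ℝ≥0) ^ 6 * (60 * N * K)))
            ≤ (2 * (N:ℝ≥0) + N) ^ 3 * (C * ((n : ℝ≥0) ^ 6 * (60 * N * K))) := by gcongr
          _ = 1620 * C * (n : ℝ≥0) ^ 6 * K * (N:ℝ≥0) ^ 4 := by ring
          _ ≤ 1620 * C * (n : ℝ≥0) ^ 6 * K *
              (29 ^ 4 * (n:ℝ≥0) ^ 2 * (1 + M) ^ (4 / ((n : ℝ) + 1))) := by gcongr
          _ = _ := by ring
    _ = _ := by push_cast; ring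

end Pool.Agent.Y258.SSCE
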