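import Pool.Agent.Y250.SS.Stm3
import Pool.Agent.Y250.SS.A5

set_option autoImplicit false

/-! Project SS, job TG: the theorem of Tomas and Stein in graph coordinates (the computation is the
one of `Pool/Agent/Y250/SS/A6.lean` by helper250, in the other direction). -/

namespace Pool.Agent.Y258.SSTG

open MeasureTheory Set Complex Filter Topology
open scoped ENNReal NNReal RealInnerProductSpace
open Pool.Agent.Helper793.Nir (E3 S2 sig rot)
open Pool.Agent.Y250.SS

lemma evE_Lo (P : Poly3) (z : ℝ × ℝ) : evE P (Lo z) = ph P z := by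
  unfold evE ph ev3
  have e : (fun i => (Lo z) i) = ![z.1, z.2, -hh z] := by
    funext i
    fin_cases i <;> simp [Lo]
  rw [e]

lemma evE_meas (P : Poly3) : Measurable (evE P) := by
  unfold evE
  exact ((MvPolynomial.continuous_eval P).comp (by fun_prop)).measurable

/-- the coordinates of the dual space -/
noncomputable def Th (ξ : E3) : ℝ × (ℝ × ℝ) := (ξ 2, (-ξ 0, -ξ 1))

lemma Th_mp : MeasurePreserving Th volume volume := by
  have h0 : MeasurePreserving (fun ξ : E3 => (fun i => ξ i : Fin 3 → ℝ)) volume volume :=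
    EuclideanSpace.volume_preserving_symm_measurableEquiv_toLp (Fin 3)
  have h1 := volume_preserving_piFinSuccAbove (fun _ : Fin 3 => ℝ) 2
  have h2 := volume_preserving_finTwoArrow ℝ
  have h3 : MeasurePreserving (fun z : ℝ × ℝ => -z) volume volume :=
    Measure.measurePreserving_neg volume
  have h4 := (MeasurePreserving.id (volume : Measure ℝ)).prod (h3.comp h2)
  have h5 := (h4.comp h1).comp h0
  have e : Th = (Prod.map id ((fun z : ℝ × ℝ => -z) ∘ ⇑MeasurableEquiv.finTwoArrow) ∘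
      ⇑(MeasurableEquiv.piFinSuccAbove (fun _ : Fin 3 => ℝ) 2)) ∘
      (fun ξ : E3 => (fun i => ξ i : Fin 3 → ℝ)) := by
    funext ξ
    rfl
  rw [e]
  exact h5

/-- the part of the sphere over the small disc -/
def Rn (n : ℕ) : Set S2 := {x : S2 | (x : E3) 2 < 0 ∧ ((x : E3) 0, (x : E3) 1) ∈ S n}

lemma Rn_meas (h4 : S_XF) (n : ℕ) (hn : 1 ≤ n) : MeasurableSet (Rn n) := by
  have a1 : MeasurableSet {x : S2 | (x : E3) 2 < 0} := by
    apply measurableSet_lt
    · have : Continuous fun x : S2 => (x : E3) 2 := by fun_prop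
      exact this.measurable
    · exact measurable_const
  have a2 : MeasurableSet {x : S2 | ((x : E3) 0, (x : E3) 1) ∈ S n} := by
    have : Continuous fun x : S2 => ((x : E3) 0, (x : E3) 1) := by fun_prop
    exact this.measurable (h4.2.2.2.2.2 n hn)
  exact a1.inter a2

/-- the density in space -/
noncomputable def den (Q : Poly3) (f : ℝ × ℝ → ℂ) (x : E3) : ℂ :=
  (hh (x 0, x 1) : ℂ) * f (x 0, x 1) * cexp ((evE Q x : ℂ) * I)

lemma den_meas (Q : Poly3) (f : ℝ × ℝ → ℂ) (hf : Measurable f) : Measurable (den Q f) := by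
  unfold den
  have h0 : Continuous fun x : E3 => (x 0, x 1) := by fun_prop
  have h1 : Measurable fun x : E3 => ((hh (x 0, x 1) : ℝ) : ℂ) :=
    Complex.measurable_ofReal.comp (hh_cont.measurable.comp h0.measurable)
  have h2 : Measurable fun x : E3 => f (x 0, x 1) := hf.comp h0.measurable
  have h3 : Measurable fun x : E3 => cexp ((evE Q x : ℂ) * I) :=
    Complex.measurable_exp.comp ((Complex.measurable_ofReal.comp (evE_meas Q)).mul_const I)
  exact (h1.mul h2).mul h3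

lemma hh_nonneg (z : ℝ × ℝ) : 0 ≤ hh z := Real.sqrt_nonneg _

lemma hh_le (z : ℝ × ℝ) : hh z ≤ 1 := by
  unfold hh
  rw [Real.sqrt_le_left (by norm_num)]
  nlinarith [sq_nonneg z.1, sq_nonneg z.2]

lemma den_norm (Q : Poly3) (f : ℝ × ℝ → ℂ) (x : E3) :
    ‖den Q f x‖ = hh (x 0, x 1) * ‖f (x 0, x 1)‖ := by
  unfold den
  rw [norm_mul, norm_mul, Complex.norm_exp_ofReal_mul_I, mul_one, Complex.norm_real,
    Real.norm_eq_abs, abs_of_nonneg (hh_nonneg _)]

/-- the density on the sphere -/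
noncomputable def gn (Q : Poly3) (f : ℝ × ℝ → ℂ) (n : ℕ) : S2 → ℂ :=
  (Rn n).indicator fun x => den Q f (x : E3)

lemma Lo_fst (z : ℝ × ℝ) : ((Lo z) 0, (Lo z) 1) = z := by
  simp [Lo]

/-- the Fourier transform of the density -/
lemma ft_gn (h2 : S_SC) (h4 : S_XF) {b : ℝ} (D : Data b) (n : ℕ) (hn : 1 ≤ n) (Q : Poly3)
    (hS : D.S = S n) (hφ : D.φ = ph Q) (hη : D.η = hh) (f : ℝ × ℝ → ℂ) (hf : Measurable f)
    (hf0 : ∀ z, z ∉ D.S → f z = 0) (ξ : E3) : ft (gn Q f n) ξ = D.T f (Th ξ) := by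
  set F : E3 → ℂ := fun x => cexp (-(2 * Real.pi * ⟪x, ξ⟫ : ℝ) * I) * den Q f x with hF
  have hFm : Measurable F := by
    have hd := den_meas Q f hf
    simp only [hF]
    apply Measurable.mul _ hd
    fun_prop
  have hset := Rn_meas h4 n hn
  have h1 := h2 n F hn hFm
  have e1 : ft (gn Q f n) ξ = ∫ x in Rn n, F x ∂sig := by
    unfold ft
    rw [← integral_indicator hset]
    congr 1
    ext x
    unfold gn
    by_cases hx : x ∈ Rn n
    · rw [indicator_of_mem hx, indicator_of_mem hx]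
    · rw [indicator_of_notMem hx, indicator_of_notMem hx, mul_zero]
  have e2 : ∫ x in Rn n, F x ∂sig = ∫ z in S n, ((1 / hh z : ℝ) : ℂ) * F (Lo z) := h1
  rw [e1, e2, ← integral_indicator (h4.2.2.2.2.2 n hn)]
  unfold Data.T
  congr 1
  ext z
  by_cases hz : z ∈ S n
  · rw [indicator_of_mem hz]
    have hlow := hh_low z (h4.2.2.2.2.1 n hn z hz)
    have hne : ((hh z : ℝ) : ℂ) ≠ 0 := by
      rw [Ne, ofReal_eq_zero]
      linarith
    simp only [hF, den]
    rw [evE_Lo, Lo_fst]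
    have e2 : ⟪Lo z, ξ⟫ = z.1 * ξ 0 + z.2 * ξ 1 - hh z * ξ 2 := by
      rw [PiLp.inner_apply, Fin.sum_univ_three]
      simp [Lo]
      ring
    rw [e2]
    have e3 : cexp (-(2 * Real.pi * (z.1 * ξ 0 + z.2 * ξ 1 - hh z * ξ 2) : ℝ) * I) *
        cexp ((ph Q z : ℂ) * I) = D.ex (Th ξ).2 (Th ξ).1 z := by
      unfold Data.ex
      rw [← Complex.exp_add, hφ, hη]
      congr 1
      simp only [Th]
      push_cast
      ring
    rw [← e3]
    push_cast
    field_simp
  · rw [indicator_of_notMem hz, hf0 z (by rw [hS]; exact hz), zero_mul]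

/-- the norm of the density -/
lemma gn_norm (h3 : S_SG) (h4 : S_XF) (n : ℕ) (hn : 1 ≤ n) (Q : Poly3) (f : ℝ × ℝ → ℂ)
    (hf : Measurable f) : eLpNorm (gn Q f n) 2 sig ≤ eLpNorm f 2 volume := by
  rw [eLpNorm_eq_lintegral_rpow_enorm_toReal (by norm_num) (by norm_num),
    eLpNorm_eq_lintegral_rpow_enorm_toReal (by norm_num) (by norm_num)]
  refine ENNReal.rpow_le_rpow ?_ (by positivity)
  have e1 : ∫⁻ x, ‖gn Q f n x‖ₑ ^ (2 : ℝ≥0∞).toReal ∂sig =
      ∫⁻ x in Rn n, ‖den Q f (x : E3)‖ₑ ^ (2 : ℝ≥0∞).toReal ∂sig := by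
    rw [← lintegral_indicator (Rn_meas h4 n hn)]
    congr 1
    ext x
    unfold gn
    by_cases hx : x ∈ Rn n
    · rw [indicator_of_mem hx, indicator_of_mem hx]
    · rw [indicator_of_notMem hx, indicator_of_notMem hx]
      simp
  have e2 : ∫⁻ x in Rn n, ‖den Q f (x : E3)‖ₑ ^ (2 : ℝ≥0∞).toReal ∂sig =
      ∫⁻ z in S n, ENNReal.ofReal (1 / hh z) * ‖den Q f (Lo z)‖ₑ ^ (2 : ℝ≥0∞).toReal :=
    h3 n (fun x => ‖den Q f x‖ₑ ^ (2 : ℝ≥0∞).toReal) hn
      ((den_meas Q f hf).enorm.pow_const _)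
  rw [e1, e2]
  refine le_trans (setLIntegral_mono' (h4.2.2.2.2.2 n hn) fun z hz => ?_) (setLIntegral_le_lintegral _ _)
  have hlow := hh_low z (h4.2.2.2.2.1 n hn z hz)
  have hle := hh_le z
  have e3 : ‖den Q f (Lo z)‖ₑ = ENNReal.ofReal (hh z) * ‖f z‖ₑ := by
    rw [← ofReal_norm, den_norm, Lo_fst, ENNReal.ofReal_mul (hh_nonneg z), ofReal_norm]
  have e4 : (2 : ℝ≥0∞).toReal = ((2 : ℕ) : ℝ) := by norm_num
  rw [e3, e4, ENNReal.rpow_natCast, ENNReal.rpow_natCast, mul_pow, ← mul_assoc]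
  calc ENNReal.ofReal (1 / hh z) * ENNReal.ofReal (hh z) ^ 2 * ‖f z‖ₑ ^ 2
      ≤ 1 * ‖f z‖ₑ ^ 2 := by
        gcongr
        rw [← ENNReal.ofReal_pow (hh_nonneg z), ← ENNReal.ofReal_mul (by positivity),
          ← ENNReal.ofReal_one]
        apply ENNReal.ofReal_le_ofReal
        have hpos : 0 < hh z := by linarith
        rw [one_div, sq, ← mul_assoc, inv_mul_cancel₀ hpos.ne', one_mul]
        exact hle
    _ = _ := one_mul _

theorem tg (h1 : S_TS) (h2 : S_SC) (h3 : S_SG) (h4 : S_XF) : S_TG := by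
  intro P hP
  obtain ⟨C, hC⟩ := h1 P hP
  refine ⟨C, fun n Q b D hn hS hφ hη f hf hM hf0 => ?_⟩
  obtain ⟨M, hM⟩ := hM
  have hgm : Measurable (gn Q f n) :=
    ((den_meas Q f hf).comp measurable_subtype_coe).indicator (Rn_meas h4 n hn)
  have hgb : ∃ M' : ℝ, ∀ x, ‖gn Q f n x‖ ≤ M' := by
    refine ⟨M, fun x => ?_⟩
    have hM0 : 0 ≤ M := (norm_nonneg _).trans (hM 0)
    unfold gn
    by_cases hx : x ∈ Rn n
    · rw [indicator_of_mem hx, den_norm]
      have a1 := hh_le ((x : E3) 0, (x : E3) 1)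
      have a2 := hM ((x : E3) 0, (x : E3) 1)
      calc _ ≤ 1 * M := mul_le_mul a1 a2 (norm_nonneg _) (by norm_num)
        _ = M := one_mul _
    · rw [indicator_of_notMem hx, norm_zero]
      exact hM0
  have e1 : ft (gn Q f n) = D.T f ∘ Th := by
    funext ξ
    exact ft_gn h2 h4 D n hn Q hS hφ hη f hf hf0 ξ
  have h5 := hC (gn Q f n) hgm hgb
  rw [e1, eLpNorm_comp_measurePreserving (D.T_meas _ hf).aestronglyMeasurable Th_mp] at h5
  refine h5.trans ?_
  gcongr
  exact gn_norm h3 h4 n hn Q f hf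

end Pool.Agent.Y258.SSTG
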