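import Pool.Agent.Helper793.Nir.Sph1

set_option autoImplicit false

/-! Project SS, job CE, part 1: a partition of unity into small caps of the sphere. -/

namespace Pool.Agent.Y258.SSCE

open MeasureTheory Set Filter Topology
open Pool.Agent.Helper793.Nir (E3 S2 sig S2_norm)

/-- the tent -/
noncomputable def tn (v : ℝ) : ℝ := max 0 (1 - |v|)

lemma tn_nonneg (v : ℝ) : 0 ≤ tn v := le_max_left _ _

lemma tn_le (v : ℝ) : tn v ≤ 1 := by
  unfold tn
  exact max_le (by norm_num) (by linarith [abs_nonneg v])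

lemma tn_lip (v w : ℝ) : |tn v - tn w| ≤ |v - w| := by
  unfold tn
  have h2 : |max 0 (1 - |v|) - max 0 (1 - |w|)| ≤ |(1 - |v|) - (1 - |w|)| := by
    rw [max_comm 0, max_comm 0]
    exact abs_max_sub_max_le_abs _ _ _
  refine h2.trans ?_
  have h3 := abs_abs_sub_abs_le_abs_sub w v
  calc |(1 - |v|) - (1 - |w|)| = |(|w| - |v|)| := by congr 1; ring
    _ ≤ |w - v| := h3
    _ = |v - w| := abs_sub_comm _ _

lemma tn_cont : Continuous tn := by unfold tn; fun_prop

lemma tn_zero (v : ℝ) (h : 1 ≤ |v|) : tn v = 0 := by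
  unfold tn
  exact max_eq_left (by linarith)

lemma tent_sum (N : ℕ) : ∀ v : ℝ, 0 ≤ v → v ≤ N → ∑ a ∈ Finset.range (N + 1), tn (v - a) = 1 := by
  induction N with
  | zero =>
    intro v h0 h1
    have : v = 0 := le_antisymm (by simpa using h1) h0
    subst this
    simp [tn]
  | succ N ih =>
    intro v h0 h1
    rw [Finset.sum_range_succ]
    push_cast at h1 ⊢
    rcases le_or_gt v N with h | h
    · rw [ih v h0 h, tn_zero, add_zero]
      rw [abs_of_nonpos (by linarith)]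
      linarith
    · rw [Finset.sum_range_succ, Finset.sum_eq_zero]
      · unfold tn
        rw [abs_of_nonneg (by linarith : 0 ≤ v - N), abs_of_nonpos (by linarith : v - (N + 1) ≤ 0),
          max_eq_right (by linarith), max_eq_right (by linarith)]
        ring
      · intro a ha
        rw [Finset.mem_range] at ha
        apply tn_zero
        have : (a : ℝ) + 1 ≤ N := by exact_mod_cast ha
        rw [abs_of_nonneg (by linarith)]
        linarith

/-- the cut-off functions -/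
noncomputable def cf (N : ℕ) (a : Fin 3 → ℕ) (x : E3) : ℝ := ∏ i, tn (N * x i + N - a i)

/-- the set of cells -/
def cells (N : ℕ) : Finset (Fin 3 → ℕ) := Fintype.piFinset fun _ => Finset.range (2 * N + 1)

lemma cells_card (N : ℕ) : (cells N).card = (2 * N + 1) ^ 3 := by
  simp [cells, Fintype.card_piFinset]

lemma coord_le (x : S2) (i : Fin 3) : |(x : E3) i| ≤ 1 := by
  have h := PiLp.norm_apply_le (x : E3) i
  rw [S2_norm, Real.norm_eq_abs] at h
  exact h

lemma coord_sub_le (x y : E3) (i : Fin 3) : |x i - y i| ≤ ‖x - y‖ := by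
  have h := PiLp.norm_apply_le (x - y) i
  rw [Real.norm_eq_abs] at h
  exact h

lemma cf_nonneg (N : ℕ) (a : Fin 3 → ℕ) (x : E3) : 0 ≤ cf N a x :=
  Finset.prod_nonneg fun _ _ => tn_nonneg _

lemma cf_le (N : ℕ) (a : Fin 3 → ℕ) (x : E3) : cf N a x ≤ 1 :=
  Finset.prod_le_one (fun _ _ => tn_nonneg _) fun _ _ => tn_le _

lemma cf_cont (N : ℕ) (a : Fin 3 → ℕ) : Continuous (cf N a) := by
  unfold cf
  refine continuous_finsetProd _ fun i _ => tn_cont.comp ?_
  fun_prop

lemma cf_sum (N : ℕ) (x : S2) : ∑ a ∈ cells N, cf N a (x : E3) = 1 := by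
  unfold cf cells
  rw [← Finset.prod_univ_sum (fun _ => Finset.range (2 * N + 1))
    (fun i j => tn (N * (x : E3) i + N - (j : ℝ)))]
  refine Finset.prod_eq_one fun i _ => ?_
  have h := abs_le.1 (coord_le x i)
  have hN : (0:ℝ) ≤ N := Nat.cast_nonneg N
  apply tent_sum (2 * N)
  · nlinarith
  · push_cast; nlinarith

lemma cf_lip (N : ℕ) (a : Fin 3 → ℕ) (x y : E3) : |cf N a x - cf N a y| ≤ 3 * N * ‖x - y‖ := by
  have hN : (0 : ℝ) ≤ N := Nat.cast_nonneg N
  have l : ∀ i, |tn (N * x i + N - a i) - tn (N * y i + N - a i)| ≤ N * ‖x - y‖ := by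
    intro i
    refine (tn_lip _ _).trans ?_
    have e1 : (N * x i + N - a i : ℝ) - (N * y i + N - a i) = N * (x i - y i) := by ring
    rw [e1, abs_mul, abs_of_nonneg hN]
    exact mul_le_mul_of_nonneg_left (coord_sub_le x y i) hN
  unfold cf
  rw [Fin.prod_univ_three, Fin.prod_univ_three]
  have l0 := l 0
  have l1 := l 1
  have l2 := l 2
  set p0 := tn (N * x 0 + N - a 0)
  set p1 := tn (N * x 1 + N - a 1)
  set p2 := tn (N * x 2 + N - a 2)
  set q0 := tn (N * y 0 + N - a 0)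
  set q1 := tn (N * y 1 + N - a 1)
  set q2 := tn (N * y 2 + N - a 2)
  have e : p0 * p1 * p2 - q0 * q1 * q2 = (p0 - q0) * (p1 * p2) + (q0 * p2) * (p1 - q1) +
      (q0 * q1) * (p2 - q2) := by ring
  have b : ∀ u v : ℝ, |tn u * tn v| ≤ 1 := fun u v => by
    rw [abs_of_nonneg (mul_nonneg (tn_nonneg _) (tn_nonneg _))]
    calc _ ≤ (1:ℝ) * 1 := mul_le_mul (tn_le _) (tn_le _) (tn_nonneg _) (by norm_num)
      _ = 1 := one_mul _
  rw [e]
  have h1 : |(p0 - q0) * (p1 * p2)| ≤ N * ‖x - y‖ := by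
    rw [abs_mul]
    calc _ ≤ (N * ‖x - y‖) * 1 := mul_le_mul l0 (b _ _) (abs_nonneg _) (by positivity)
      _ = _ := mul_one _
  have h2 : |(q0 * p2) * (p1 - q1)| ≤ N * ‖x - y‖ := by
    rw [abs_mul]
    calc _ ≤ 1 * (N * ‖x - y‖) := mul_le_mul (b _ _) l1 (abs_nonneg _) (by norm_num)
      _ = _ := one_mul _
  have h3 : |(q0 * q1) * (p2 - q2)| ≤ N * ‖x - y‖ := by
    rw [abs_mul]
    calc _ ≤ 1 * (N * ‖x - y‖) := mul_le_mul (b _ _) l2 (abs_nonneg _) (by norm_num)
      _ = _ := one_mul _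
  have h4 := abs_add_le ((p0 - q0) * (p1 * p2) + (q0 * p2) * (p1 - q1)) ((q0 * q1) * (p2 - q2))
  have h5 := abs_add_le ((p0 - q0) * (p1 * p2)) ((q0 * p2) * (p1 - q1))
  linarith

lemma cf_ne (N : ℕ) (a : Fin 3 → ℕ) (x : E3) (h : cf N a x ≠ 0) (i : Fin 3) :
    |N * x i + N - a i| < 1 := by
  by_contra hc
  exact h (Finset.prod_eq_zero (Finset.mem_univ i) (tn_zero _ (not_lt.1 hc)))

lemma cf_dist (N : ℕ) (hN : 0 < N) (a : Fin 3 → ℕ) (x y : E3) (hx : cf N a x ≠ 0)
    (hy : cf N a y ≠ 0) : ‖x - y‖ ≤ 7 / (2 * N) := by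
  have hN' : (0:ℝ) < N := Nat.cast_pos.2 hN
  have h : ∀ i, (x i - y i) ^ 2 ≤ (2 / N) ^ 2 := by
    intro i
    have h1 := abs_lt.1 (cf_ne N a x hx i)
    have h2 := abs_lt.1 (cf_ne N a y hy i)
    have h3 : |x i - y i| ≤ 2 / N := by
      rw [abs_le, ← neg_div, div_le_iff₀ hN', le_div_iff₀ hN']
      constructor <;> nlinarith
    rw [← sq_abs (x i - y i)]
    exact pow_le_pow_left₀ (abs_nonneg _) h3 2
  rw [EuclideanSpace.norm_eq]
  apply Real.sqrt_le_iff.2
  refine ⟨by positivity, ?_⟩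
  rw [Fin.sum_univ_three]
  simp only [Real.norm_eq_abs, sq_abs, PiLp.sub_apply]
  have h4 : (7 / (2 * (N:ℝ))) ^ 2 = 49 / 16 * (2 / N) ^ 2 := by
    field_simp
    norm_num
  rw [h4]
  nlinarith [h 0, h 1, h 2, sq_nonneg (2 / (N:ℝ))]

end Pool.Agent.Y258.SSCE
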