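import Pool.Agent.Y250.SS.Stm2
import Pool.Agent.Y258.SS.CE1

set_option autoImplicit false

/-! Project SS, job CE, part 2: multipliers of the Besov class. -/

namespace Pool.Agent.Y258.SSCE

open MeasureTheory Set Complex Filter Topology
open scoped ENNReal NNReal RealInnerProductSpace
open Pool.Agent.Helper793.Nir (E3 S2 sig S2_norm)
open Pool.Agent.Y250.SS

lemma evE_cont (P : Poly3) : Continuous (evE P) := by
  unfold evE
  have h : Continuous fun x : E3 => (fun i => x i : Fin 3 → ℝ) := by fun_prop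
  exact (MvPolynomial.continuous_eval P).comp h

lemma exp_sub_le (α β : ℝ) : ‖cexp ((α : ℂ) * I) - cexp ((β : ℂ) * I)‖ ≤ |α - β| := by
  have e : cexp ((α : ℂ) * I) - cexp ((β : ℂ) * I) =
      cexp ((β : ℂ) * I) * (cexp (I * ((α - β : ℝ) : ℂ)) - 1) := by
    rw [mul_sub, ← Complex.exp_add, mul_one]
    congr 2
    push_cast
    ring
  rw [e, norm_mul, Complex.norm_exp_ofReal_mul_I, one_mul]
  exact Real.norm_exp_I_mul_ofReal_sub_one_le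

lemma mult_lip (θ χ : S2 → ℝ) (A L : ℝ) (hA : 0 ≤ A) (hL : 0 ≤ L) (h0 : ∀ x, 0 ≤ χ x ∧ χ x ≤ 1)
    (hχ : ∀ x y : S2, |χ x - χ y| ≤ A * ‖(x : E3) - (y : E3)‖)
    (hθ : ∀ x y : S2, χ x ≠ 0 → χ y ≠ 0 → |θ x - θ y| ≤ L * ‖(x : E3) - (y : E3)‖) (x y : S2) :
    ‖cexp ((θ x : ℂ) * I) * (χ x : ℂ) - cexp ((θ y : ℂ) * I) * (χ y : ℂ)‖ ≤
      (A + L) * ‖(x : E3) - (y : E3)‖ := by
  have hn : 0 ≤ ‖(x : E3) - (y : E3)‖ := norm_nonneg _
  by_cases hy : χ y = 0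
  · have h1 := hχ x y
    rw [hy, sub_zero] at h1
    rw [hy, ofReal_zero, mul_zero, sub_zero, norm_mul, Complex.norm_exp_ofReal_mul_I, one_mul,
      Complex.norm_real, Real.norm_eq_abs]
    nlinarith
  by_cases hx : χ x = 0
  · have h1 := hχ x y
    rw [hx, zero_sub, abs_neg] at h1
    rw [hx, ofReal_zero, mul_zero, zero_sub, norm_neg, norm_mul, Complex.norm_exp_ofReal_mul_I,
      one_mul, Complex.norm_real, Real.norm_eq_abs]
    nlinarith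
  have e : cexp ((θ x : ℂ) * I) * (χ x : ℂ) - cexp ((θ y : ℂ) * I) * (χ y : ℂ) =
      cexp ((θ x : ℂ) * I) * ((χ x - χ y : ℝ) : ℂ) +
        (cexp ((θ x : ℂ) * I) - cexp ((θ y : ℂ) * I)) * (χ y : ℂ) := by
    push_cast; ring
  rw [e]
  refine (norm_add_le _ _).trans ?_
  rw [norm_mul, norm_mul, Complex.norm_exp_ofReal_mul_I, one_mul, Complex.norm_real,
    Complex.norm_real, Real.norm_eq_abs, Real.norm_eq_abs, abs_of_nonneg (h0 y).1]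
  have h1 := hχ x y
  have h2 := (exp_sub_le (θ x) (θ y)).trans (hθ x y hx hy)
  have h3 : ‖cexp ((θ x : ℂ) * I) - cexp ((θ y : ℂ) * I)‖ * χ y ≤ L * ‖(x : E3) - (y : E3)‖ * 1 :=
    mul_le_mul h2 (h0 y).2 (h0 y).1 (by positivity)
  linarith

lemma sq_enorm (z : ℂ) : ‖z‖ₑ ^ 2 = ENNReal.ofReal (‖z‖ ^ 2) := by
  rw [ENNReal.ofReal_pow (norm_nonneg _), ofReal_norm]

lemma pw (m : S2 → ℂ) (g : S2 → ℂ) (N δ : ℝ) (hN : 0 ≤ N) (hδ : 0 ≤ δ) (hm1 : ∀ x, ‖m x‖ ≤ 1)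
    (hlip : ∀ x y : S2, ‖m x - m y‖ ≤ 4 * N * ‖(x : E3) - (y : E3)‖) (x y : S2)
    (hxy : ‖(y : E3) - (x : E3)‖ ≤ δ) :
    ‖m y * g y - m x * g x‖ₑ ^ 2 ≤
      2 * ‖g y - g x‖ₑ ^ 2 + ENNReal.ofReal (32 * N ^ 2 * δ ^ 2) * ‖g x‖ₑ ^ 2 := by
  rw [sq_enorm, sq_enorm, sq_enorm, ← ENNReal.ofReal_mul (by positivity),
    show (2 : ℝ≥0∞) = ENNReal.ofReal 2 by norm_num, ← ENNReal.ofReal_mul (by norm_num),
    ← ENNReal.ofReal_add (by positivity) (by positivity)]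
  apply ENNReal.ofReal_le_ofReal
  have e : m y * g y - m x * g x = m y * (g y - g x) + (m y - m x) * g x := by ring
  have h1 : ‖m y * g y - m x * g x‖ ≤ ‖g y - g x‖ + 4 * N * δ * ‖g x‖ := by
    rw [e]
    refine (norm_add_le _ _).trans ?_
    rw [norm_mul, norm_mul]
    have h2 : ‖m y - m x‖ ≤ 4 * N * δ := (hlip y x).trans (by gcongr)
    have h3 : ‖m y‖ * ‖g y - g x‖ ≤ 1 * ‖g y - g x‖ :=
      mul_le_mul_of_nonneg_right (hm1 y) (norm_nonneg _)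
    have h4 : ‖m y - m x‖ * ‖g x‖ ≤ 4 * N * δ * ‖g x‖ :=
      mul_le_mul_of_nonneg_right h2 (norm_nonneg _)
    linarith
  have h5 : ‖m y * g y - m x * g x‖ ^ 2 ≤ (‖g y - g x‖ + 4 * N * δ * ‖g x‖) ^ 2 :=
    pow_le_pow_left₀ (norm_nonneg _) h1 2
  nlinarith [sq_nonneg (‖g y - g x‖ - 4 * N * δ * ‖g x‖)]

theorem bes_mul (hCA : S_CA) (s : ℝ) (hs : s ≤ 1) (K : ℝ≥0) (g m : S2 → ℂ) (hm : Measurable m)
    (hm1 : ∀ x, ‖m x‖ ≤ 1) (N : ℕ) (hN : 1 ≤ N)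
    (hlip : ∀ x y : S2, ‖m x - m y‖ ≤ 4 * N * ‖(x : E3) - (y : E3)‖) (hg : BesS s K g) :
    BesS s (60 * N * K) fun x => m x * g x := by
  obtain ⟨g1, g2, g3⟩ := hg
  have hN1 : (1 : ℝ≥0∞) ≤ N := by exact_mod_cast hN
  refine ⟨hm.mul g1, ?_, fun δ hδ hδ1 => ?_⟩
  · calc ∫⁻ x, ‖m x * g x‖ₑ ^ 2 ∂sig ≤ ∫⁻ x, ‖g x‖ₑ ^ 2 ∂sig := by
          refine lintegral_mono fun x => ?_
          refine pow_le_pow_left' ?_ 2
          rw [← ofReal_norm, ← ofReal_norm, norm_mul]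
          apply ENNReal.ofReal_le_ofReal
          calc ‖m x‖ * ‖g x‖ ≤ 1 * ‖g x‖ := mul_le_mul_of_nonneg_right (hm1 x) (norm_nonneg _)
            _ = ‖g x‖ := one_mul _
      _ ≤ (K : ℝ≥0∞) ^ 2 := g2
      _ ≤ _ := by
          refine pow_le_pow_left' ?_ 2
          push_cast
          calc (K : ℝ≥0∞) = 1 * 1 * K := by ring
            _ ≤ 60 * N * K := by
                gcongr
                norm_num
  · have hball : ∀ x : S2, MeasurableSet {y : S2 | ‖(y : E3) - (x : E3)‖ ≤ δ} := fun x => by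
      apply IsClosed.measurableSet
      exact isClosed_le (by fun_prop) continuous_const
    set c : ℝ≥0∞ := ENNReal.ofReal (32 * (N : ℝ) ^ 2 * δ ^ 2) with hc
    have step : ∀ x : S2, ∫⁻ y in {y : S2 | ‖(y : E3) - (x : E3)‖ ≤ δ},
        ‖m y * g y - m x * g x‖ₑ ^ 2 ∂sig ≤
        2 * (∫⁻ y in {y : S2 | ‖(y : E3) - (x : E3)‖ ≤ δ}, ‖g y - g x‖ₑ ^ 2 ∂sig) +
          (c * ENNReal.ofReal (100 * δ ^ 2)) * ‖g x‖ₑ ^ 2 := by
      intro x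
      calc ∫⁻ y in {y : S2 | ‖(y : E3) - (x : E3)‖ ≤ δ}, ‖m y * g y - m x * g x‖ₑ ^ 2 ∂sig
          ≤ ∫⁻ y in {y : S2 | ‖(y : E3) - (x : E3)‖ ≤ δ}, (2 * ‖g y - g x‖ₑ ^ 2 +
            c * ‖g x‖ₑ ^ 2) ∂sig := by
            refine setLIntegral_mono' (hball x) fun y hy => ?_
            exact pw m g N δ (Nat.cast_nonneg _) hδ.le hm1 hlip x y hy
        _ = 2 * (∫⁻ y in {y : S2 | ‖(y : E3) - (x : E3)‖ ≤ δ}, ‖g y - g x‖ₑ ^ 2 ∂sig) +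
            c * ‖g x‖ₑ ^ 2 * sig {y : S2 | ‖(y : E3) - (x : E3)‖ ≤ δ} := by
            rw [lintegral_add_right _ measurable_const, lintegral_const_mul' _ _ (by simp),
              setLIntegral_const]
        _ ≤ 2 * (∫⁻ y in {y : S2 | ‖(y : E3) - (x : E3)‖ ≤ δ}, ‖g y - g x‖ₑ ^ 2 ∂sig) +
            c * ‖g x‖ₑ ^ 2 * ENNReal.ofReal (100 * δ ^ 2) := by
            gcongr
            exact hCA x δ hδ
        _ = _ := by ring
    have hD : c * ENNReal.ofReal (100 * δ ^ 2) ≤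
        3200 * (N : ℝ≥0∞) ^ 2 * ENNReal.ofReal (δ ^ (2 + 2 * s)) := by
      have e1 : (3200 * (N : ℝ≥0∞) ^ 2) = ENNReal.ofReal (3200 * (N : ℝ) ^ 2) := by
        rw [ENNReal.ofReal_mul (by norm_num), ENNReal.ofReal_pow (Nat.cast_nonneg _),
          ENNReal.ofReal_natCast]
        norm_num
      rw [hc, e1, ← ENNReal.ofReal_mul (by positivity), ← ENNReal.ofReal_mul (by positivity)]
      apply ENNReal.ofReal_le_ofReal
      have h4 : δ ^ (4:ℕ) ≤ δ ^ (2 + 2 * s) := by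
        rw [← Real.rpow_natCast]
        apply Real.rpow_le_rpow_of_exponent_ge hδ hδ1
        push_cast
        linarith
      calc 32 * (N : ℝ) ^ 2 * δ ^ 2 * (100 * δ ^ 2) = 3200 * (N : ℝ) ^ 2 * δ ^ 4 := by ring
        _ ≤ _ := by gcongr
    calc ∫⁻ x, (∫⁻ y in {y : S2 | ‖(y : E3) - (x : E3)‖ ≤ δ},
          ‖m y * g y - m x * g x‖ₑ ^ 2 ∂sig) ∂sig
        ≤ ∫⁻ x, (2 * (∫⁻ y in {y : S2 | ‖(y : E3) - (x : E3)‖ ≤ δ}, ‖g y - g x‖ₑ ^ 2 ∂sig) +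
          (c * ENNReal.ofReal (100 * δ ^ 2)) * ‖g x‖ₑ ^ 2) ∂sig := lintegral_mono step
      _ = 2 * (∫⁻ x, (∫⁻ y in {y : S2 | ‖(y : E3) - (x : E3)‖ ≤ δ}, ‖g y - g x‖ₑ ^ 2 ∂sig) ∂sig) +
          (c * ENNReal.ofReal (100 * δ ^ 2)) * ∫⁻ x, ‖g x‖ₑ ^ 2 ∂sig := by
          rw [lintegral_add_right _ ((g1.enorm.pow_const 2).const_mul _),
            lintegral_const_mul' _ _ (by simp),
            lintegral_const_mul' _ _ (ENNReal.mul_ne_top ENNReal.ofReal_ne_top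
              ENNReal.ofReal_ne_top)]
      _ ≤ 2 * ((K : ℝ≥0∞) ^ 2 * ENNReal.ofReal (δ ^ (2 + 2 * s))) +
          (3200 * (N : ℝ≥0∞) ^ 2 * ENNReal.ofReal (δ ^ (2 + 2 * s))) * (K : ℝ≥0∞) ^ 2 := by
          gcongr
          exact g3 δ hδ hδ1
      _ = (2 * 1 + 3200 * (N : ℝ≥0∞) ^ 2) * ((K : ℝ≥0∞) ^ 2 *
          ENNReal.ofReal (δ ^ (2 + 2 * s))) := by ring
      _ ≤ (400 * (N : ℝ≥0∞) ^ 2 + 3200 * (N : ℝ≥0∞) ^ 2) * ((K : ℝ≥0∞) ^ 2 *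
          ENNReal.ofReal (δ ^ (2 + 2 * s))) := by
          gcongr
          · norm_num
          · exact one_le_pow₀ hN1
      _ = _ := by
          push_cast
          ring

end Pool.Agent.Y258.SSCE
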